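import Pool.Agent.H705.SD.Res

set_option autoImplicit false

/-!
The black pebbling number is approximated within a polylogarithmic factor by formulas whose depth is
linear in it up to polylogarithmic factors.
-/

namespace Pool.Agent.Results.MP_1fca05_lc.GapDepth

open Finset

variable {n : ℕ}

/-- the in-neighbours of `v` in the digraph whose edges are the pairs `(u, v)` with
`e (u, v) = true` -/
def pred (e : Fin n × Fin n → Bool) (v : Fin n) : Finset (Fin n) :=
  Finset.univ.filter (fun u => e (u, v) = true)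

/-- One move of the standard (black) pebble game: place a pebble on `v` if all in-neighbours of `v`
carry pebbles, slide a pebble from an in-neighbour of such a `v` onto `v`, or remove a pebble. -/
def BlackMove (pr : Fin n → Finset (Fin n)) (A B : Finset (Fin n)) : Prop :=
  (∃ v, pr v ⊆ A ∧ B = insert v A) ∨
    (∃ v, pr v ⊆ A ∧ ∃ u ∈ pr v, B = insert v (A.erase u)) ∨ (∃ u, B = A.erase u)

/-- The node `z` can be pebbled with at most `s` pebbles, starting from no pebbles. -/
def Peb (pr : Fin n → Finset (Fin n)) (z : Fin n) (s : ℕ) : Prop :=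
  ∃ (τ : ℕ) (cfg : ℕ → Finset (Fin n)), cfg 0 = ∅ ∧ z ∈ cfg τ ∧
    (∀ t, t < τ → BlackMove pr (cfg t) (cfg (t + 1))) ∧ ∀ t, t ≤ τ → (cfg t).card ≤ s

/-- One move of the reversible pebble game: a pebble is placed on `v` or removed from `v` while all
in-neighbours of `v` carry pebbles. -/
def RevMove (pr : Fin n → Finset (Fin n)) (A B : Finset (Fin n)) : Prop :=
  (∃ v, v ∉ A ∧ pr v ⊆ A ∧ B = insert v A) ∨ (∃ v, v ∉ B ∧ pr v ⊆ B ∧ A = insert v B)

lemma RevMove.symm {pr : Fin n → Finset (Fin n)} {A B : Finset (Fin n)}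
    (h : RevMove pr A B) : RevMove pr B A := by
  rcases h with h | h
  · exact Or.inr h
  · exact Or.inl h

/-- reversible moves with at most `r` pebbles -/
def RStep (pr : Fin n → Finset (Fin n)) (r : ℕ) (A B : Finset (Fin n)) : Prop :=
  RevMove pr A B ∧ A.card ≤ r ∧ B.card ≤ r

/-- connected by reversible moves -/
def Conn (pr : Fin n → Finset (Fin n)) (r : ℕ) (A B : Finset (Fin n)) : Prop :=
  Relation.ReflTransGen (RStep pr r) A B

lemma Conn.mono {pr : Fin n → Finset (Fin n)} {r r' : ℕ} (hr : r ≤ r') {A B : Finset (Fin n)}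
    (h : Conn pr r A B) : Conn pr r' A B := by
  induction h with
  | refl => exact Relation.ReflTransGen.refl
  | tail _ h2 ih => exact Relation.ReflTransGen.tail ih ⟨h2.1, h2.2.1.trans hr, h2.2.2.trans hr⟩

lemma Conn.symm {pr : Fin n → Finset (Fin n)} {r : ℕ} {A B : Finset (Fin n)}
    (h : Conn pr r A B) : Conn pr r B A := by
  induction h with
  | refl => exact Relation.ReflTransGen.refl
  | tail _ h2 ih => exact Relation.ReflTransGen.head ⟨h2.1.symm, h2.2.2, h2.2.1⟩ ih

lemma Conn.ins {pr : Fin n → Finset (Fin n)} {r : ℕ} {A B : Finset (Fin n)} (f : Fin n)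
    (h : Conn pr r A B) : Conn pr (r + 1) (insert f A) (insert f B) := by
  induction h with
  | refl => exact Relation.ReflTransGen.refl
  | @tail B C _ h2 ih =>
    obtain ⟨hm, hB, hC⟩ := h2
    have cB : (insert f B).card ≤ r + 1 := (card_insert_le _ _).trans (by omega)
    have cC : (insert f C).card ≤ r + 1 := (card_insert_le _ _).trans (by omega)
    rcases hm with ⟨v, h1, h3, rfl⟩ | ⟨v, h1, h3, rfl⟩
    · by_cases hv : v = f
      · subst hv
        simpa using ih
      · refine Relation.ReflTransGen.tail ih ⟨Or.inl ⟨v, ?_, ?_, ?_⟩, cB, cC⟩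
        · simp [hv, h1]
        · exact h3.trans (subset_insert _ _)
        · exact Finset.insert_comm _ _ _
    · by_cases hv : v = f
      · subst hv
        simpa using ih
      · refine Relation.ReflTransGen.tail ih ⟨Or.inr ⟨v, ?_, ?_, ?_⟩, cB, cC⟩
        · simp [hv, h1]
        · exact h3.trans (subset_insert _ _)
        · exact Finset.insert_comm _ _ _

lemma seq_of_conn {pr : Fin n → Finset (Fin n)} {r : ℕ} {A B : Finset (Fin n)} (hA : A.card ≤ r)
    (h : Conn pr r A B) : ∃ (τ : ℕ) (cfg : ℕ → Finset (Fin n)), cfg 0 = A ∧ cfg τ = B ∧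
    (∀ t, t < τ → RevMove pr (cfg t) (cfg (t + 1))) ∧ ∀ t, t ≤ τ → (cfg t).card ≤ r := by
  induction h with
  | refl => exact ⟨0, fun _ => A, rfl, rfl, by simp, fun _ _ => hA⟩
  | @tail B C _ h2 ih =>
    obtain ⟨τ, cfg, h0, h1, h3, h4⟩ := ih
    refine ⟨τ + 1, fun t => if t ≤ τ then cfg t else C, by simp [h0], by simp, ?_, ?_⟩
    · intro t ht
      dsimp only
      rw [if_pos (by omega)]
      rcases Nat.lt_or_ge t τ with h | h
      · rw [if_pos (by omega)]
        exact h3 t h
      · obtain rfl : t = τ := by omega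
        rw [if_neg (by omega), h1]
        exact h2.1
    · intro t ht
      dsimp only
      split_ifs with h
      · exact h4 t h
      · exact h2.2.2


/-- Boolean formulas; `lit v b` is the literal that is true if the variable `v` has value `b`. -/
inductive BF (V : Type) : Type
  | tt : BF V
  | ff : BF V
  | lit (v : V) (b : Bool) : BF V
  | or (a b : BF V) : BF V
  | and (a b : BF V) : BF V

/-- The value of a formula. -/
def BF.eval {V : Type} (x : V → Bool) : BF V → Prop
  | BF.tt => True
  | BF.ff => False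
  | BF.lit v b => x v = b
  | BF.or a b => a.eval x ∨ b.eval x
  | BF.and a b => a.eval x ∧ b.eval x

/-- The depth of a formula. -/
def BF.depth {V : Type} : BF V → ℕ
  | BF.tt => 0
  | BF.ff => 0
  | BF.lit _ _ => 0
  | BF.or a b => max a.depth b.depth + 1
  | BF.and a b => max a.depth b.depth + 1

section build

variable {V : Type}

/-- big disjunction -/
def orN : ℕ → (ℕ → BF V) → BF V
  | 0, f => f 0
  | j + 1, f => BF.or (orN j f) (orN j (fun i => f (i + 2 ^ j)))

/-- big conjunction -/
def andN : ℕ → (ℕ → BF V) → BF V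
  | 0, f => f 0
  | j + 1, f => BF.and (andN j f) (andN j (fun i => f (i + 2 ^ j)))

lemma eval_orN (x : V → Bool) : ∀ (j : ℕ) (f : ℕ → BF V),
    (orN j f).eval x ↔ ∃ i < 2 ^ j, (f i).eval x
  | 0, f => by simp [orN]
  | j + 1, f => by
    simp only [orN, BF.eval]
    rw [eval_orN x j, eval_orN x j]
    constructor
    · rintro (⟨i, hi, h⟩ | ⟨i, hi, h⟩)
      · exact ⟨i, by rw [pow_succ]; omega, h⟩
      · exact ⟨i + 2 ^ j, by rw [pow_succ]; omega, h⟩
    · rintro ⟨i, hi, h⟩
      rw [pow_succ] at hi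
      rcases Nat.lt_or_ge i (2 ^ j) with h1 | h1
      · exact Or.inl ⟨i, h1, h⟩
      · refine Or.inr ⟨i - 2 ^ j, by omega, ?_⟩
        rwa [Nat.sub_add_cancel h1]

lemma eval_andN (x : V → Bool) : ∀ (j : ℕ) (f : ℕ → BF V),
    (andN j f).eval x ↔ ∀ i < 2 ^ j, (f i).eval x
  | 0, f => by simp [andN]
  | j + 1, f => by
    simp only [andN, BF.eval]
    rw [eval_andN x j, eval_andN x j]
    constructor
    · rintro ⟨h1, h2⟩ i hi
      rw [pow_succ] at hi
      rcases Nat.lt_or_ge i (2 ^ j) with h3 | h3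
      · exact h1 i h3
      · have := h2 (i - 2 ^ j) (by omega)
        rwa [Nat.sub_add_cancel h3] at this
    · intro h
      refine ⟨fun i hi => h i (by rw [pow_succ]; omega), fun i hi => h _ (by rw [pow_succ]; omega)⟩

lemma depth_orN {h : ℕ} : ∀ (j : ℕ) (f : ℕ → BF V), (∀ i, (f i).depth ≤ h) →
    (orN j f).depth ≤ h + j
  | 0, f, hf => hf 0
  | j + 1, f, hf => by
    simp only [orN, BF.depth]
    have h1 := depth_orN j f hf
    have h2 := depth_orN j (fun i => f (i + 2 ^ j)) (fun i => hf _)
    omega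

lemma depth_andN {h : ℕ} : ∀ (j : ℕ) (f : ℕ → BF V), (∀ i, (f i).depth ≤ h) →
    (andN j f).depth ≤ h + j
  | 0, f, hf => hf 0
  | j + 1, f, hf => by
    simp only [andN, BF.depth]
    have h1 := depth_andN j f hf
    have h2 := depth_andN j (fun i => f (i + 2 ^ j)) (fun i => hf _)
    omega

/-- disjunction over `Fin n` -/
def orFin {n : ℕ} (j : ℕ) (g : Fin n → BF V) : BF V :=
  orN j (fun i => if h : i < n then g ⟨i, h⟩ else BF.ff)

/-- conjunction over `Fin n` -/
def andFin {n : ℕ} (j : ℕ) (g : Fin n → BF V) : BF V :=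
  andN j (fun i => if h : i < n then g ⟨i, h⟩ else BF.tt)

lemma eval_orFin {n j : ℕ} (hn : n ≤ 2 ^ j) (x : V → Bool) (g : Fin n → BF V) :
    (orFin j g).eval x ↔ ∃ i, (g i).eval x := by
  unfold orFin
  rw [eval_orN]
  constructor
  · rintro ⟨i, hi, h⟩
    by_cases hin : i < n
    · rw [dif_pos hin] at h
      exact ⟨_, h⟩
    · rw [dif_neg hin] at h
      exact absurd h (by simp [BF.eval])
  · rintro ⟨i, h⟩
    exact ⟨i, lt_of_lt_of_le i.isLt hn, by rw [dif_pos i.isLt]; exact h⟩

lemma eval_andFin {n j : ℕ} (hn : n ≤ 2 ^ j) (x : V → Bool) (g : Fin n → BF V) :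
    (andFin j g).eval x ↔ ∀ i, (g i).eval x := by
  unfold andFin
  rw [eval_andN]
  constructor
  · intro h i
    have := h i (lt_of_lt_of_le i.isLt hn)
    rwa [dif_pos i.isLt] at this
  · intro h i _
    by_cases hin : i < n
    · rw [dif_pos hin]
      exact h _
    · rw [dif_neg hin]
      simp [BF.eval]

lemma depth_orFin {n j h : ℕ} (g : Fin n → BF V) (hg : ∀ i, (g i).depth ≤ h) :
    (orFin j g).depth ≤ h + j := by
  unfold orFin
  apply depth_orN
  intro i
  split_ifs
  · exact hg _
  · simp [BF.depth]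

lemma depth_andFin {n j h : ℕ} (g : Fin n → BF V) (hg : ∀ i, (g i).depth ≤ h) :
    (andFin j g).depth ≤ h + j := by
  unfold andFin
  apply depth_andN
  intro i
  split_ifs
  · exact hg _
  · simp [BF.depth]

end build

/-- the recursion over the number `k` of questions -/
def gF (j : ℕ) : ℕ → Finset (Fin n) → Finset (Fin n) → BF (Fin n × Fin n)
  | 0, T, F => if Disjoint T F then
      orFin j (fun v => if v ∈ F then
        andFin j (fun u => if u ∈ T then BF.tt else BF.lit (u, v) false) else BF.ff)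
    else BF.tt
  | k + 1, T, F => BF.or (gF j k T F)
      (orFin j (fun v => BF.and (gF j k (insert v T) F) (gF j k T (insert v F))))

lemma depth_gF (j : ℕ) : ∀ (k : ℕ) (T F : Finset (Fin n)),
    (gF j k T F).depth ≤ k * (j + 2) + 2 * j
  | 0, T, F => by
    unfold gF
    split_ifs with h
    · have h1 : (orFin j (fun v : Fin n => if v ∈ F then
        andFin j (fun u : Fin n => if u ∈ T then (BF.tt : BF (Fin n × Fin n)) else
          BF.lit (u, v) false) else BF.ff)).depth ≤ 0 + j + j := by
        apply depth_orFin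
        intro v
        split_ifs
        · apply depth_andFin
          intro u
          split_ifs <;> simp [BF.depth]
        · simp [BF.depth]
      omega
    · simp [BF.depth]
  | k + 1, T, F => by
    simp only [gF, BF.depth]
    have h1 := depth_gF j k T F
    have h2 : (orFin j (fun v : Fin n => BF.and (gF j k (insert v T) F)
        (gF j k T (insert v F)))).depth ≤ (k * (j + 2) + 2 * j + 1) + j := by
      apply depth_orFin
      intro v
      simp only [BF.depth]
      have h3 := depth_gF j k (insert v T) F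
      have h4 := depth_gF j k T (insert v F)
      omega
    have h5 : (k + 1) * (j + 2) = k * (j + 2) + (j + 2) := by ring
    omega

lemma gF_zero_le {j : ℕ} (x : Fin n × Fin n → Bool) {T F : Finset (Fin n)}
    (h : (gF j 0 T F).eval x) : ∀ k : ℕ, (gF j k T F).eval x
  | 0 => h
  | k + 1 => by
    simp only [gF, BF.eval]
    exact Or.inl (gF_zero_le x h k)

lemma gF_complete {j : ℕ} (hn : n ≤ 2 ^ j) (e : Fin n × Fin n → Bool) {M : ℕ → Finset (Fin n)}
    {τ : ℕ} (hstep : ∀ t, t < τ → BlackMove (pred e) (M t) (M (t + 1))) {k : ℕ}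
    {T F : Finset (Fin n)} (h : Pool.Agent.H705.SD.Win M τ (fun _ => 1) k T F) :
    (gF j k T F).eval e := by
  induction h with
  | @leaf k T F t ht h1 D h2 h3 =>
    apply gF_zero_le
    unfold gF
    split_ifs with hd
    · have hDT : D ∉ T := fun h => (Finset.disjoint_left.1 hd h) h3
      have hDM : D ∉ M t := fun h => hDT (h1 h)
      have hpred : pred e D ⊆ M t := by
        rcases hstep t ht with ⟨v, hv, hM⟩ | ⟨v, hv, u, hu, hM⟩ | ⟨u, hM⟩
        · rw [hM] at h2
          rcases mem_insert.1 h2 with rfl | h4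
          · exact hv
          · exact absurd h4 hDM
        · rw [hM] at h2
          rcases mem_insert.1 h2 with rfl | h4
          · exact hv
          · exact absurd (mem_of_mem_erase h4) hDM
        · rw [hM] at h2
          exact absurd (mem_of_mem_erase h2) hDM
      rw [eval_orFin hn]
      refine ⟨D, ?_⟩
      rw [if_pos h3, eval_andFin hn]
      intro u
      split_ifs with hu
      · simp [BF.eval]
      · simp only [BF.eval]
        by_contra hcon
        apply hu
        apply h1
        apply hpred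
        unfold pred
        rw [mem_filter]
        exact ⟨mem_univ _, by simpa using hcon⟩
    · simp [BF.eval]
  | @query k T F D h1 h2 ih1 ih2 =>
    simp only [gF, BF.eval]
    right
    rw [eval_orFin hn]
    exact ⟨D, ih1, ih2⟩

lemma gF_sound {j : ℕ} (hn : n ≤ 2 ^ j) (e : Fin n × Fin n → Bool) : ∀ (k : ℕ)
    (T F : Finset (Fin n)), (gF j k T F).eval e →
      ∃ f ∈ F, Conn (pred e) (T.card + k + 1) T (insert f T)
  | 0, T, F, h => by
    unfold gF at h
    split_ifs at h with hd
    · rw [eval_orFin hn] at h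
      obtain ⟨v, hv⟩ := h
      split_ifs at hv with hvF
      · rw [eval_andFin hn] at hv
        have hvT : v ∉ T := fun h => (disjoint_left.1 hd h) hvF
        refine ⟨v, hvF, Relation.ReflTransGen.single ⟨Or.inl ⟨v, hvT, ?_, rfl⟩, by omega, ?_⟩⟩
        · intro u hu
          by_contra huT
          have := hv u
          rw [if_neg huT] at this
          simp only [BF.eval] at this
          unfold pred at hu
          rw [mem_filter] at hu
          rw [hu.2] at this
          exact absurd this (by simp)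
        · exact (card_insert_le _ _).trans (by omega)
      · exact absurd hv (by simp [BF.eval])
    · rw [not_disjoint_iff] at hd
      obtain ⟨f, h1, h2⟩ := hd
      refine ⟨f, h2, ?_⟩
      rw [insert_eq_of_mem h1]
      exact Relation.ReflTransGen.refl
  | k + 1, T, F, h => by
    simp only [gF, BF.eval] at h
    rcases h with h | h
    · obtain ⟨f, hf, hc⟩ := gF_sound hn e k T F h
      exact ⟨f, hf, hc.mono (by omega)⟩
    · rw [eval_orFin hn] at h
      obtain ⟨D, h1, h2⟩ := h
      by_cases hDT : D ∈ T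
      · rw [insert_eq_of_mem hDT] at h1
        obtain ⟨f, hf, hc⟩ := gF_sound hn e k T F h1
        exact ⟨f, hf, hc.mono (by omega)⟩
      by_cases hDF : D ∈ F
      · rw [insert_eq_of_mem hDF] at h2
        obtain ⟨f, hf, hc⟩ := gF_sound hn e k T F h2
        exact ⟨f, hf, hc.mono (by omega)⟩
      obtain ⟨f, hf, hc⟩ := gF_sound hn e k T (insert D F) h2
      rcases mem_insert.1 hf with rfl | hf
      swap
      · exact ⟨f, hf, hc.mono (by omega)⟩
      obtain ⟨f', hf', hc'⟩ := gF_sound hn e k (insert f T) F h1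
      have hcard : (insert f T).card = T.card + 1 := card_insert_of_notMem hDT
      rw [hcard] at hc'
      refine ⟨f', hf', ?_⟩
      have e1 : Conn (pred e) (T.card + (k + 1) + 1) T (insert f T) := hc.mono (by omega)
      have e2 : Conn (pred e) (T.card + (k + 1) + 1) (insert f T) (insert f' (insert f T)) :=
        hc'.mono (by omega)
      have e3 : Conn (pred e) (T.card + (k + 1) + 1) (insert f' (insert f T)) (insert f' T) :=
        (Conn.ins f' hc.symm).mono (by omega)
      exact (e1.trans e2).trans e3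

lemma arith {s l u : ℝ} (hs : 1 ≤ s) (hu : 0 ≤ u) (hl : Real.log 2 ≤ l) :
    20 * (u + 1) ^ 2 * 1 * ((s * l + 1) / Real.log 2) + 2 * s * (2 * u + 1) ≤
      51 * ((u + 1) ^ 2 * s) * (l / Real.log 2) := by
  have h1 : (0.6931 : ℝ) < Real.log 2 := by
    have := Real.log_two_gt_d9
    linarith
  have hl2 : 0 < Real.log 2 := by linarith
  set y := l / Real.log 2 with hy
  have hy1 : 1 ≤ y := by rw [hy, le_div_iff₀ hl2]; linarith
  have e1 : (s * l + 1) / Real.log 2 = s * y + 1 / Real.log 2 := by
    rw [hy]; field_simp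
  have h3 : 1 / Real.log 2 ≤ 1.45 := by
    rw [div_le_iff₀ hl2]
    nlinarith
  have hsy : 1 ≤ s * y := by nlinarith
  have h4 : (s * l + 1) / Real.log 2 ≤ 2.45 * (s * y) := by
    rw [e1]; linarith
  have h5 : 20 * (u + 1) ^ 2 * 1 * ((s * l + 1) / Real.log 2) ≤
      20 * (u + 1) ^ 2 * 1 * (2.45 * (s * y)) := by
    apply mul_le_mul_of_nonneg_left h4
    positivity
  have h6 : 2 * s * (2 * u + 1) ≤ 2 * s * ((u + 1) ^ 2) := by
    apply mul_le_mul_of_nonneg_left _ (by linarith)
    nlinarith [sq_nonneg u]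
  have h7 : 2 * s * (u + 1) ^ 2 ≤ 2 * s * (u + 1) ^ 2 * y := by
    have : 0 ≤ 2 * s * (u + 1) ^ 2 := by positivity
    nlinarith
  have e2 : 20 * (u + 1) ^ 2 * 1 * (2.45 * (s * y)) = 49 * ((u + 1) ^ 2 * s * y) := by ring
  have e3 : 2 * s * (u + 1) ^ 2 * y = 2 * ((u + 1) ^ 2 * s * y) := by ring
  have e4 : 51 * ((u + 1) ^ 2 * s) * y = 51 * ((u + 1) ^ 2 * s * y) := by ring
  rw [e4]
  linarith

/-- **Approximating the pebbling number.**  Let `n ≥ 2`, `s ≥ 1` and let `z` be a node. There are a
Boolean formula `φ` over the bits of digraphs with `n` nodes, of depth at most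
`208 (⌊log₂ s⌋ + 1)² s (log₂ n)²`, and a number `r ≤ 51 (⌊log₂ s⌋ + 1)² s log₂ n + 1` such that `φ`
accepts all digraphs in which `z` can be pebbled with `s` pebbles, and `z` can be pebbled with `r`
pebbles in all digraphs that `φ` accepts. -/
theorem result (n : ℕ) (hn : 2 ≤ n) (s : ℕ) (hs0 : 1 ≤ s) (z : Fin n) :
    ∃ (φ : BF (Fin n × Fin n)) (r : ℕ),
      (φ.depth : ℝ) ≤ 208 * (((Nat.log 2 s : ℝ) + 1) ^ 2 * s) * (Real.logb 2 n) ^ 2 ∧
      (r : ℝ) ≤ 51 * (((Nat.log 2 s : ℝ) + 1) ^ 2 * s) * Real.logb 2 n + 1 ∧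
      (∀ e : Fin n × Fin n → Bool, Peb (pred e) z s → φ.eval e) ∧
      (∀ e : Fin n × Fin n → Bool, φ.eval e → Peb (pred e) z r) := by
  classical
  have hnR : (2 : ℝ) ≤ n := by exact_mod_cast hn
  have hsR : (1 : ℝ) ≤ s := by exact_mod_cast hs0
  have hlog : Real.log 2 ≤ Real.log n := Real.log_le_log (by norm_num) hnR
  have hl2 : 0 < Real.log 2 := Real.log_pos (by norm_num)
  have hlogn : 0 ≤ Real.log n := hl2.le.trans hlog
  obtain ⟨m, hm, hmN⟩ := Pool.Agent.H705.SD.params (s := s) (w := 1) le_rfl hs0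
    (X := s * Real.log n + 1) (by positivity)
  set N := m * (2 * s + 2 * 1 * Nat.log 2 (s / 1) * 2 ^ (Nat.log 2 (s / 1) + 1)) with hN
  rw [Nat.div_one] at hmN hm
  have h3 : (N : ℝ) ≤ 51 * (((Nat.log 2 s : ℝ) + 1) ^ 2 * s) * Real.logb 2 n := by
    have h5 := arith hsR (Nat.cast_nonneg (Nat.log 2 s)) hlog
    rw [Real.logb]
    refine le_trans ?_ h5
    simpa [hN] using hmN
  set j := Nat.clog 2 n with hj
  have hnj : n ≤ 2 ^ j := Nat.le_pow_clog (by norm_num) n
  refine ⟨gF j N ∅ {z}, N + 1, ?_, by push_cast; linarith, ?_, ?_⟩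
  · have h2 : ((gF j N ∅ {z}).depth : ℝ) ≤ (N : ℝ) * (j + 2) + 2 * j := by
      have : ((gF j N ∅ {z}).depth : ℝ) ≤ ((N * (j + 2) + 2 * j : ℕ) : ℝ) := by
        exact_mod_cast depth_gF j N ∅ {z}
      push_cast at this
      linarith
    refine h2.trans ?_
    set lam := Real.logb 2 n with hlam
    have hlam1 : 1 ≤ lam := by
      rw [hlam, Real.logb, le_div_iff₀ hl2]
      linarith
    have h6 : (j : ℝ) ≤ lam + 1 := by
      rw [hj, ← Real.natCeil_logb_natCast]
      have := (Nat.ceil_lt_add_one (show 0 ≤ Real.logb ((2 : ℕ) : ℝ) n by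
        have : Real.logb ((2 : ℕ) : ℝ) n = lam := by rw [hlam]; norm_num
        rw [this]; linarith)).le
      have h7 : Real.logb ((2 : ℕ) : ℝ) n = lam := by rw [hlam]; norm_num
      rw [h7] at this ⊢
      exact this
    have hu1 : (1 : ℝ) ≤ ((Nat.log 2 s : ℝ) + 1) ^ 2 := by
      have : (0 : ℝ) ≤ Nat.log 2 s := Nat.cast_nonneg _
      nlinarith
    have hS : 1 ≤ ((Nat.log 2 s : ℝ) + 1) ^ 2 * s := by nlinarith
    set S := ((Nat.log 2 s : ℝ) + 1) ^ 2 * s with hSdef
    have h7 : (N : ℝ) * (j + 2) ≤ (51 * S * lam) * (lam + 3) := by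
      apply mul_le_mul h3 (by linarith) (by positivity) (by positivity)
    have h9 : 51 * S * lam * (lam + 3) ≤ 204 * (S * lam ^ 2) := by
      have : 0 ≤ S * lam * (lam - 1) := by
        apply mul_nonneg (by positivity) (by linarith)
      nlinarith
    have h10 : lam ≤ S * lam ^ 2 := by
      have e1 : 0 ≤ (S - 1) * lam ^ 2 := mul_nonneg (by linarith) (by positivity)
      have e2 : 0 ≤ lam * (lam - 1) := mul_nonneg (by linarith) (by linarith)
      nlinarith
    have h11 : 1 ≤ S * lam ^ 2 := by linarith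
    have h12 : 208 * S * lam ^ 2 = 208 * (S * lam ^ 2) := by ring
    rw [h12]
    linarith
  · rintro e ⟨τ, cfg, h0, hz, h1, h2⟩
    have hτ' : 0 < τ := by
      rcases Nat.eq_zero_or_pos τ with h | h
      · rw [h, h0] at hz
        simp at hz
      · exact h
    have hwin : Pool.Agent.H705.SD.Win cfg τ (fun _ => 1) N ∅ {z} := by
      refine Pool.Agent.H705.SD.nest_win (s := s) (W := 1) (J := (Nat.log 2 s : ℝ) + 2)
        (by push_cast; rw [Nat.div_one]; linarith) ?_ ?_ (fun _ => Real.log n)
        (H := s * Real.log n) (Z := 1) ?_ ?_ (by rw [Nat.div_one]; exact hm) (by simp) hτ' ?_ ?_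
      · intro t ht
        simpa using h2 t ht
      · intro t ht D hD
        exact le_rfl
      · intro U
        rw [Finset.sum_const, nsmul_eq_mul, Real.exp_neg, Real.exp_log (by linarith)]
        rw [← div_eq_mul_inv, div_le_one (by linarith)]
        have := Finset.card_le_univ U
        rw [Fintype.card_fin] at this
        exact_mod_cast this
      · intro t ht
        rw [Finset.sum_const, nsmul_eq_mul]
        apply mul_le_mul_of_nonneg_right _ hlogn
        exact_mod_cast h2 t ht
      · rw [h0]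
      · exact ⟨z, hz, by simp⟩
    exact gF_complete hnj e h1 hwin
  · intro e he
    obtain ⟨f, hf, hc⟩ := gF_sound hnj e N ∅ {z} he
    rw [mem_singleton] at hf
    subst hf
    obtain ⟨τ', cfg', g0, g1, g2, g3⟩ := seq_of_conn (r := N + 1) (by simp) (hc.mono (by simp))
    refine ⟨τ', cfg', g0, by rw [g1]; simp, fun t ht => ?_, g3⟩
    rcases g2 t ht with ⟨v, h4, h5, h6⟩ | ⟨v, h4, h5, h6⟩
    · exact Or.inl ⟨v, h5, h6⟩
    · refine Or.inr (Or.inr ⟨v, ?_⟩)
      rw [h6, erase_insert h4]

end Pool.Agent.Results.MP_1fca05_lc.GapDepth
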